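import Mathlib

namespace Pool.Agent.Results.MP_d408b2_an.NoLim

open Filter Topology

noncomputable def K (a u v w : ℝ) : ℝ :=
  max a (max u (max v w)) + max 0 (-u) + max 0 (-v) + max 0 (-w)

lemma K_inv (a u v w t : ℝ) (h : t = max a (max w v) - u) : K a v w t = K a u v w := by
  unfold K
  have e1 : max a (max u (max v w)) = max (max a (max w v)) u := by ac_rfl
  have e2 : max a (max v (max w t)) = max (max a (max w v)) t := by ac_rfl
  rw [e1, e2, h]
  generalize max a (max w v) = m
  generalize max 0 (-v) = p
  generalize max 0 (-w) = q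
  simp only [max_def]
  split_ifs <;> linarith

theorem logv (a : ℝ) (y : ℕ → ℝ) (hy : ∀ n, y (n + 3) = max a (max (y (n + 2)) (y (n + 1))) - y n)
    (l : ℝ) (hl : Tendsto y atTop (𝓝 l)) : ∀ n, y n = l := by
  have t1 : Tendsto (fun n => y (n + 1)) atTop (𝓝 l) := hl.comp (tendsto_add_atTop_nat 1)
  have t2 : Tendsto (fun n => y (n + 2)) atTop (𝓝 l) := hl.comp (tendsto_add_atTop_nat 2)
  have t3 : Tendsto (fun n => y (n + 3)) atTop (𝓝 l) := hl.comp (tendsto_add_atTop_nat 3)
  have hfix : l = max a l - l := by
    have := tendsto_nhds_unique t3 (((tendsto_const_nhds.max (t2.max t1)).sub hl).congr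
      fun n => (hy n).symm)
    simpa using this
  have back : ∀ N, y N = l → y (N + 1) = l → y (N + 2) = l → ∀ n ≤ N, y n = l := by
    intro N
    induction N with
    | zero => intro h _ _ n hn; rw [Nat.le_zero.1 hn, h]
    | succ N ih =>
      intro h0 h1 h2 n hn
      have h := hy N
      rw [h2, h1, h0, max_self] at h
      have hN : y N = l := by linarith
      rcases Nat.lt_or_ge n (N + 1) with h' | h'
      · exact ih hN h0 h1 n (by omega)
      · rw [show n = N + 1 by omega, h0]
  by_cases ha : a ≤ 0
  · have hl0 : l = 0 := by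
      rcases le_total a l with h | h
      · rw [max_eq_right h] at hfix; linarith
      · rw [max_eq_left h] at hfix; linarith
    subst hl0
    have hK : ∀ n, K a (y n) (y (n + 1)) (y (n + 2)) = K a (y 0) (y 1) (y 2) := by
      intro n
      induction n with
      | zero => rfl
      | succ n ih => rw [← ih]; exact K_inv a _ _ _ _ (hy n)
    have hlim : Tendsto (fun n => K a (y n) (y (n + 1)) (y (n + 2))) atTop (𝓝 (K a 0 0 0)) := by
      unfold K
      exact (((tendsto_const_nhds.max (hl.max (t1.max t2))).add
        (tendsto_const_nhds.max hl.neg)).add (tendsto_const_nhds.max t1.neg)).add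
        (tendsto_const_nhds.max t2.neg)
    have h0 : K a 0 0 0 = 0 := by unfold K; simp [ha]
    rw [h0] at hlim
    have h1 : K a (y 0) (y 1) (y 2) = 0 :=
      tendsto_nhds_unique tendsto_const_nhds (hlim.congr hK)
    intro n
    have h2 := (hK n).trans h1
    unfold K at h2
    have b1 := le_max_left 0 (-y n)
    have b2 := le_max_right 0 (-y n)
    have b3 := le_max_left 0 (-y (n + 1))
    have b4 := le_max_right 0 (-y (n + 1))
    have b5 := le_max_left 0 (-y (n + 2))
    have b6 : y n ≤ max a (max (y n) (max (y (n + 1)) (y (n + 2)))) :=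
      (le_max_left _ _).trans (le_max_right _ _)
    have b7 : y (n + 1) ≤ max a (max (y n) (max (y (n + 1)) (y (n + 2)))) :=
      ((le_max_left _ _).trans (le_max_right _ _)).trans (le_max_right _ _)
    linarith
  · push Not at ha
    have hla : l < a := by
      rcases le_total a l with h | h
      · rw [max_eq_right h] at hfix; linarith
      · rw [max_eq_left h] at hfix; linarith
    obtain ⟨N, hN⟩ := eventually_atTop.1 (hl.eventually (gt_mem_nhds hla))
    have h3 : ∀ n ≥ N, y (n + 3) = a - y n := by
      intro n hn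
      rw [hy, max_eq_left (max_le (hN _ (by omega)).le (hN _ (by omega)).le)]
    have h6 : ∀ n ≥ N, ∀ j, y (n + 6 * j) = y n := by
      intro n hn j
      induction j with
      | zero => rfl
      | succ j ih =>
        rw [show n + 6 * (j + 1) = n + 6 * j + 3 + 3 by ring, h3 _ (by omega), h3 _ (by omega), ih]
        ring
    have hc : ∀ n ≥ N, y n = l := by
      intro n hn
      have ht : Tendsto (fun j : ℕ => n + 6 * j) atTop atTop :=
        tendsto_atTop_mono (fun j => by simp only [id]; omega) tendsto_id
      exact tendsto_nhds_unique tendsto_const_nhds ((hl.comp ht).congr fun j => h6 n hn j)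
    intro n
    exact back (n + N) (hc _ (by omega)) (hc _ (by omega)) (hc _ (by omega)) n (by omega)

theorem result : ∀ A : ℝ, 0 < A → ∀ x : ℕ → ℝ, (∀ n, 0 < x n) →
    (∀ n, x (n + 3) = max A (max (x (n + 2)) (x (n + 1))) / x n) →
    (∃ m n, x m ≠ x n) → ¬ ∃ l : ℝ, Tendsto x atTop (𝓝 l) := by
  rintro A hA x hpos hx ⟨m, n, hmn⟩ ⟨l, hl⟩
  have hl0 : 0 < l := by
    have h0 : 0 ≤ l := ge_of_tendsto' hl fun n => (hpos n).le
    rcases h0.eq_or_lt with h | h
    · exfalso
      have t3 : Tendsto (fun n => x (n + 3) * x n) atTop (𝓝 (l * l)) :=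
        (hl.comp (tendsto_add_atTop_nat 3)).mul hl
      have : A ≤ l * l := ge_of_tendsto' t3 fun n => by
        rw [hx, div_mul_cancel₀ _ (hpos n).ne']; exact le_max_left _ _
      rw [← h] at this; linarith
    · exact h
  have hmono : ∀ u v : ℝ, 0 < u → 0 < v → Real.log (max u v) = max (Real.log u) (Real.log v) := by
    intro u v hu hv
    rcases le_total u v with h | h
    · rw [max_eq_right h, max_eq_right (Real.log_le_log hu h)]
    · rw [max_eq_left h, max_eq_left (Real.log_le_log hv h)]
  have := logv (Real.log A) (fun n => Real.log (x n)) (fun n => by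
    rw [hx, Real.log_div (lt_max_of_lt_left hA).ne' (hpos n).ne',
      hmono _ _ hA (lt_max_of_lt_left (hpos _)), hmono _ _ (hpos _) (hpos _)])
    (Real.log l) (hl.log hl0.ne')
  apply hmn
  exact Real.log_injOn_pos (hpos m) (hpos n) ((this m).trans (this n).symm)

end Pool.Agent.Results.MP_d408b2_an.NoLim
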